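import Mathlib

open Set Topology Filter

namespace Pool.Agent.Results.MP_ed4848_gt.CosmicImage

/-- A space has countable tightness if every point in the closure of a set is in the closure of a
countable subset of that set. -/
def CTight (K : Type*) [TopologicalSpace K] : Prop :=
  ∀ (A : Set K) (x : K), x ∈ closure A → ∃ B ⊆ A, B.Countable ∧ x ∈ closure B

/-- A network of a space. -/
def IsNetwork {Z : Type*} [TopologicalSpace Z] (N : Set (Set Z)) : Prop :=
  ∀ (z : Z) (U : Set Z), IsOpen U → z ∈ U → ∃ n ∈ N, z ∈ n ∧ n ⊆ U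

/-- A space is cosmic if it has a countable network. -/
def Cosmic (Z : Type*) [TopologicalSpace Z] : Prop :=
  ∃ N : Set (Set Z), N.Countable ∧ IsNetwork N

/-- Delta-system lemma for uncountable families of finite sets of bounded size. -/
theorem delta_card {T I : Type*} (F : I → Finset T) (n : ℕ) :
    ∀ (J : Set I), ¬ J.Countable → (∀ i ∈ J, (F i).card ≤ n) →
      ∃ (J' : Set I) (R : Finset T), J' ⊆ J ∧ ¬ J'.Countable ∧
        (∀ i ∈ J', R ⊆ F i) ∧ ∀ i ∈ J', ∀ j ∈ J', i ≠ j → ∀ t ∈ F i, t ∈ F j → t ∈ R := by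
  classical
  induction n generalizing F with
  | zero =>
    intro J hJ hc
    refine ⟨J, ∅, le_refl _, hJ, by simp, ?_⟩
    intro i hi j _ _ t ht
    have := hc i hi
    simp at this
    rw [this] at ht
    simp at ht
  | succ n ih =>
    intro J hJ hc
    by_cases hex : ∃ t, ¬ {i ∈ J | t ∈ F i}.Countable
    · obtain ⟨t, ht⟩ := hex
      obtain ⟨J', R, h1, h2, h3, h4⟩ := ih (fun i => (F i).erase t) {i ∈ J | t ∈ F i} ht (by
        intro i hi
        have := hc i hi.1
        rw [Finset.card_erase_of_mem hi.2]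
        omega)
      refine ⟨J', insert t R, fun i hi => (h1 hi).1, h2, ?_, ?_⟩
      · intro i hi x hx
        rcases Finset.mem_insert.mp hx with rfl | hx
        · exact (h1 hi).2
        · exact Finset.mem_of_mem_erase (h3 i hi hx)
      · intro i hi j hj hij x hxi hxj
        by_cases hxt : x = t
        · subst hxt; exact Finset.mem_insert_self _ _
        · exact Finset.mem_insert_of_mem (h4 i hi j hj hij x (Finset.mem_erase.mpr ⟨hxt, hxi⟩)
            (Finset.mem_erase.mpr ⟨hxt, hxj⟩))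
    · push Not at hex
      -- maximal disjoint subfamily
      obtain ⟨J', hJ', hmax⟩ : ∃ J' : Set I, Maximal (fun J' : Set I => J' ⊆ J ∧ ∀ i ∈ J', ∀ j ∈ J', i ≠ j → Disjoint (F i) (F j)) J' := by
        apply zorn_subset
        intro c hc1 hc2
        refine ⟨⋃₀ c, ⟨?_, ?_⟩, ?_⟩
        · exact sUnion_subset fun s hs => (hc1 hs).1
        · rintro i ⟨s, hs, his⟩ j ⟨s', hs', hjs'⟩ hij
          rcases hc2.total hs hs' with h | h
          · exact (hc1 hs').2 i (h his) j hjs' hij
          · exact (hc1 hs).2 i his j (h hjs') hij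
        · intro s hs
          exact subset_sUnion_of_mem hs
      have hmax' := hmax
      refine ⟨J', ∅, hJ'.1, ?_, by simp, ?_⟩
      · intro hcount
        apply hJ
        -- J is covered by sets meeting F j, j ∈ J'
        have hcov : J ⊆ J' ∪ ⋃ j ∈ J', ⋃ t ∈ (F j : Set T), {i ∈ J | t ∈ F i} := by
          intro i hi
          by_contra hni
          simp only [mem_union, mem_iUnion, not_or, not_exists] at hni
          obtain ⟨hni1, hni2⟩ := hni
          have hins : insert i J' ⊆ J' := by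
            apply hmax (y := insert i J')
            · refine ⟨insert_subset hi hJ'.1, ?_⟩
              have key : ∀ j ∈ J', Disjoint (F i) (F j) := by
                intro j hj
                rw [Finset.disjoint_left]
                intro t ht1 ht2
                exact hni2 j hj t (by simpa using ht2) ⟨hi, ht1⟩
              rintro a (rfl | ha) b (rfl | hb) hab
              · exact absurd rfl hab
              · exact key b hb
              · exact (key a ha).symm
              · exact hJ'.2 a ha b hb hab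
            · exact subset_insert _ _
          exact hni1 (hins (mem_insert _ _))
        refine Countable.mono hcov (hcount.union ?_)
        refine hcount.biUnion fun j _ => ?_
        exact (Finset.countable_toSet _).biUnion fun t _ => hex t
      · intro i hi j hj hij t h1 h2
        exact absurd h2 (Finset.disjoint_left.mp (hJ'.2 i hi j hj hij) h1)

/-- Delta-system lemma for uncountable families of finite sets. -/
theorem delta_system {T I : Type*} (F : I → Finset T) (J : Set I) (hJ : ¬ J.Countable) :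
      ∃ (J' : Set I) (R : Finset T), J' ⊆ J ∧ ¬ J'.Countable ∧
        (∀ i ∈ J', R ⊆ F i) ∧ ∀ i ∈ J', ∀ j ∈ J', i ≠ j → ∀ t ∈ F i, t ∈ F j → t ∈ R := by
  have : ∃ n : ℕ, ¬ {i ∈ J | (F i).card ≤ n}.Countable := by
    by_contra h
    push Not at h
    apply hJ
    refine Countable.mono ?_ (countable_iUnion h)
    intro i hi
    exact mem_iUnion.mpr ⟨(F i).card, hi, le_refl _⟩
  obtain ⟨n, hn⟩ := this
  obtain ⟨J', R, h1, h2, h3, h4⟩ := delta_card F n _ hn (fun i hi => hi.2)
  exact ⟨J', R, fun i hi => (h1 hi).1, h2, h3, h4⟩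

/-- pigeonhole for uncountable sets -/
theorem uncountable_fiber {I C : Type*} [Countable C] (f : I → C) (J : Set I) (hJ : ¬ J.Countable) :
    ∃ c, ¬ {i ∈ J | f i = c}.Countable := by
  by_contra h
  push Not at h
  apply hJ
  refine Countable.mono ?_ (countable_iUnion h)
  intro i hi
  exact mem_iUnion.mpr ⟨f i, hi, rfl⟩


/-- countable base of the line with the whole line added -/
def BB : Set (Set ℝ) := insert univ (TopologicalSpace.countableBasis ℝ)

instance : Countable BB := ((TopologicalSpace.countable_countableBasis ℝ).insert univ).to_subtype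

theorem BB_nonempty (b : BB) : (b : Set ℝ).Nonempty := by
  rcases b.2 with h | h
  · rw [h]; exact univ_nonempty
  · exact TopologicalSpace.nonempty_of_mem_countableBasis h

theorem BB_open (b : BB) : IsOpen (b : Set ℝ) := by
  rcases b.2 with h | h
  · rw [h]; exact isOpen_univ
  · exact TopologicalSpace.isOpen_of_mem_countableBasis h

theorem BB_basis {x : ℝ} {U : Set ℝ} (hU : IsOpen U) (hx : x ∈ U) : ∃ b : BB, x ∈ (b : Set ℝ) ∧ (b : Set ℝ) ⊆ U := by
  obtain ⟨b, hb, h1, h2⟩ := (TopologicalSpace.isBasis_countableBasis ℝ).exists_subset_of_mem_open hx hU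
  exact ⟨⟨b, Or.inr hb⟩, h1, h2⟩

/-- boxes -/
def Box {T : Type*} (G : Finset T) (b : T → BB) : Set (T → ℝ) := {x | ∀ t ∈ G, x t ∈ (b t : Set ℝ)}

theorem Box_open {T : Type*} (G : Finset T) (b : T → BB) : IsOpen (Box G b) := by
  have : Box G b = ⋂ t ∈ G, {x : T → ℝ | x t ∈ (b t : Set ℝ)} := by
    ext x; simp [Box]
  rw [this]
  exact isOpen_biInter_finset fun t _ => (BB_open (b t)).preimage (continuous_apply t)

section main
variable {T S K : Type*} [TopologicalSpace S] [TopologicalSpace K] [CompactSpace K]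
  (e : S → T → ℝ) (φ : S → K)

/-- closure of the image of a box -/
def Cl (G : Finset T) (b : T → BB) : Set K := closure (φ '' (e ⁻¹' Box G b))

omit [TopologicalSpace S] in
theorem exists_good (hd : DenseRange e) (ht : CTight K) :
    ∃ A : Set T, A.Countable ∧ ∀ (G : Finset T) (b c : T → BB), (∀ t ∈ G, t ∈ A → b t = c t) →
      ¬ Disjoint (Cl e φ G b) (Cl e φ G c) := by
  classical
  -- families of separated pairs with disjoint difference sets
  let Sep : (Finset T × (T → BB) × (T → BB)) → Prop := fun p => Disjoint (Cl e φ p.1 p.2.1) (Cl e φ p.1 p.2.2)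
  let Q : Set (Finset T × (T → BB) × (T → BB)) → Prop := fun J =>
    (∀ p ∈ J, Sep p) ∧ ∀ p ∈ J, ∀ q ∈ J, p ≠ q → ∀ t ∈ p.1, t ∈ q.1 → p.2.1 t ≠ p.2.2 t → q.2.1 t = q.2.2 t
  obtain ⟨J, hJ, hmax⟩ : ∃ J, Maximal Q J := by
    apply zorn_subset
    intro c hc1 hc2
    refine ⟨⋃₀ c, ⟨?_, ?_⟩, fun s hs => subset_sUnion_of_mem hs⟩
    · rintro p ⟨s, hs, hps⟩
      exact (hc1 hs).1 p hps
    · rintro p ⟨s, hs, hps⟩ q ⟨s', hs', hqs'⟩ hpq
      rcases hc2.total hs hs' with h | h
      · exact (hc1 hs').2 p (h hps) q hqs' hpq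
      · exact (hc1 hs).2 p hps q (h hqs') hpq
  by_contra hcon
  push Not at hcon
  -- J is uncountable
  have hJunc : ¬ J.Countable := by
    intro hJc
    have hAc : (⋃ p ∈ J, {t : T | t ∈ p.1}).Countable :=
      hJc.biUnion fun p _ => (Finset.countable_toSet p.1)
    obtain ⟨G, b, c, h1, h2⟩ := hcon _ hAc
    have hmem : insert (G, b, c) J ⊆ J := by
      apply hmax (y := insert (G, b, c) J) _ (subset_insert _ _)
      refine ⟨?_, ?_⟩
      · rintro p (rfl | hp)
        · exact h2
        · exact hJ.1 p hp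
      · rintro p (rfl | hp) q (rfl | hq) hpq t htp htq hne
        · exact absurd rfl hpq
        · exact absurd (h1 t htp (mem_iUnion₂.mpr ⟨q, hq, htq⟩)) hne
        · exact h1 t htq (mem_iUnion₂.mpr ⟨p, hp, htp⟩)
        · exact hJ.2 p hp q hq hpq t htp htq hne
    have hin : (G, b, c) ∈ J := hmem (mem_insert _ _)
    have hbc : ∀ t ∈ G, b t = c t := fun t ht' => h1 t ht' (mem_iUnion₂.mpr ⟨_, hin, ht'⟩)
    have hBB : Box G b = Box G c := by
      ext x
      simp only [Box, mem_ofPred_eq]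
      constructor
      · intro h t ht'; rw [← hbc t ht']; exact h t ht'
      · intro h t ht'; rw [hbc t ht']; exact h t ht'
    have hne : (e ⁻¹' Box G b).Nonempty := by
      have hx : (Box G b).Nonempty := ⟨fun t => (BB_nonempty (b t)).some, fun t _ => (BB_nonempty (b t)).some_mem⟩
      obtain ⟨s, hs⟩ := hd.exists_mem_open (Box_open G b) hx
      exact ⟨s, hs⟩
    obtain ⟨s, hs⟩ := hne
    have h3 : φ s ∈ Cl e φ G b := subset_closure ⟨s, hs, rfl⟩
    have h4 : φ s ∈ Cl e φ G c := subset_closure ⟨s, by rw [← hBB]; exact hs, rfl⟩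
    exact Set.disjoint_left.mp h2 h3 h4
  -- refine
  obtain ⟨J', R, hJ'J, hJ', hR, hΔ⟩ := delta_system (fun p : (Finset T × (T → BB) × (T → BB)) => p.1) J hJunc
  have hJ1 : ¬ {p ∈ J' | ∀ t ∈ R, p.2.1 t = p.2.2 t}.Countable := by
    intro hc
    apply hJ'
    have hcov : J' ⊆ {p ∈ J' | ∀ t ∈ R, p.2.1 t = p.2.2 t} ∪ ⋃ t ∈ (R : Set T), {p ∈ J' | p.2.1 t ≠ p.2.2 t} := by
      intro p hp
      by_cases h : ∀ t ∈ R, p.2.1 t = p.2.2 t
      · exact Or.inl ⟨hp, h⟩
      · push Not at h
        obtain ⟨t, htR, hne⟩ := h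
        exact Or.inr (mem_iUnion₂.mpr ⟨t, htR, hp, hne⟩)
    refine Countable.mono hcov (hc.union ?_)
    refine (Finset.countable_toSet R).biUnion fun t ht' => ?_
    apply Set.Subsingleton.countable
    rintro p ⟨hp, hpne⟩ q ⟨hq, hqne⟩
    by_contra hpq
    exact hqne (hJ.2 p (hJ'J hp) q (hJ'J hq) hpq t (hR p hp ht') (hR q hq ht') hpne)
  obtain ⟨β, hβ⟩ := uncountable_fiber (C := (R → BB)) (fun p : (Finset T × (T → BB) × (T → BB)) => fun t : R => p.2.1 t) _ hJ1
  set J2 : Set (Finset T × (T → BB) × (T → BB)) := {i ∈ {p ∈ J' | ∀ t ∈ R, p.2.1 t = p.2.2 t} | (fun t : R => i.2.1 t) = β} with hJ2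
  -- consistent choice of points
  have hpt : ∀ B : Finset (Finset T × (T → BB) × (T → BB)), ∃ x : T → ℝ, ∀ p ∈ J2, x ∈ Box p.1 (if p ∈ B then p.2.2 else p.2.1) := by
    intro B
    have hch : ∀ t : T, ∃ y : ℝ, ∀ p ∈ J2, t ∈ p.1 → y ∈ (((if p ∈ B then p.2.2 else p.2.1) t : BB) : Set ℝ) := by
      intro t
      by_cases hex : ∃ p ∈ J2, t ∈ p.1
      · obtain ⟨p, hp, htp⟩ := hex
        refine ⟨(BB_nonempty ((if p ∈ B then p.2.2 else p.2.1) t)).some, ?_⟩
        intro q hq htq
        have hval : (if q ∈ B then q.2.2 else q.2.1) t = (if p ∈ B then p.2.2 else p.2.1) t := by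
          by_cases hpq : p = q
          · rw [hpq]
          · have htR : t ∈ R := hΔ p hp.1.1 q hq.1.1 hpq t htp htq
            have e1 := hp.1.2 t htR
            have e2 := hq.1.2 t htR
            have e3 := congrFun hp.2 ⟨t, htR⟩
            have e4 := congrFun hq.2 ⟨t, htR⟩
            simp only at e3 e4
            split_ifs <;> simp [← e1, ← e2, e3, e4]
        rw [hval]
        exact (BB_nonempty _).some_mem
      · push Not at hex
        exact ⟨0, fun p hp htp => absurd htp (hex p hp)⟩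
    choose x hx using hch
    exact ⟨x, fun p hp t ht' => hx t p hp ht'⟩
  -- points k_B
  have hk : ∀ B : Finset (Finset T × (T → BB) × (T → BB)), ∃ k : K, ∀ p ∈ J2, k ∈ Cl e φ p.1 (if p ∈ B then p.2.2 else p.2.1) := by
    intro B
    obtain ⟨x, hx⟩ := hpt B
    have := CompactSpace.iInter_nonempty
      (t := fun p : J2 => Cl e φ p.1.1 (if p.1 ∈ B then p.1.2.2 else p.1.2.1))
      (fun p => isClosed_closure) (by
        intro E
        have hopen : IsOpen (⋂ p ∈ E, Box p.1.1 (if p.1 ∈ B then p.1.2.2 else p.1.2.1)) :=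
          isOpen_biInter_finset fun p _ => Box_open _ _
        obtain ⟨s, hs⟩ := hd.exists_mem_open hopen ⟨x, mem_iInter₂.mpr fun p _ => hx p.1 p.2⟩
        refine ⟨φ s, mem_iInter₂.mpr fun p hp => subset_closure ⟨s, ?_, rfl⟩⟩
        exact mem_iInter₂.mp hs p hp)
    obtain ⟨k, hk⟩ := this
    exact ⟨k, fun p hp => mem_iInter.mp hk ⟨p, hp⟩⟩
  choose k hk using hk
  obtain ⟨q, hq⟩ := exists_clusterPt_of_compactSpace (Filter.map k Filter.atTop)
  have hqC : ∀ p ∈ J2, q ∈ Cl e φ p.1 p.2.2 := by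
    intro p hp
    have h1 : {B | p ∈ B} ∈ (Filter.atTop : Filter (Finset (Finset T × (T → BB) × (T → BB)))) := by
      refine Filter.mem_atTop_sets.mpr ⟨{p}, fun B hB => ?_⟩
      exact hB (Finset.mem_singleton_self p)
    have h2 : Cl e φ p.1 p.2.2 ∈ Filter.map k Filter.atTop := by
      refine Filter.mem_map.mpr (Filter.mem_of_superset h1 ?_)
      intro B hB
      have := hk B p hp
      have hB' : p ∈ B := hB
      simpa [hB'] using this
    have h3 : ClusterPt q (𝓟 (Cl e φ p.1 p.2.2)) := hq.mono (Filter.le_principal_iff.mpr h2)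
    rw [← mem_closure_iff_clusterPt] at h3
    exact (isClosed_closure (s := φ '' (e ⁻¹' Box p.1 p.2.2))).closure_subset h3
  have hqr : q ∈ closure (range k) := by
    rw [mem_closure_iff_clusterPt]
    exact hq.mono (Filter.le_principal_iff.mpr (Filter.mem_map.mpr (Filter.Eventually.of_forall fun B => mem_range_self B)))
  obtain ⟨C, hC1, hC2, hC3⟩ := ht _ _ hqr
  have : ∃ 𝓔 : Set (Finset (Finset T × (T → BB) × (T → BB))), 𝓔.Countable ∧ C ⊆ k '' 𝓔 := by
    choose g hg using fun c : C => hC1 c.2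
    refine ⟨range g, ?_, fun c hc => ⟨g ⟨c, hc⟩, mem_range_self _, hg ⟨c, hc⟩⟩⟩
    have := hC2.to_subtype
    exact countable_range g
  obtain ⟨𝓔, h𝓔1, h𝓔2⟩ := this
  have hun : ∃ p ∈ J2, ∀ B ∈ 𝓔, p ∉ B := by
    by_contra h
    push Not at h
    apply hβ
    have : (⋃ B ∈ 𝓔, (B : Set (Finset T × (T → BB) × (T → BB)))).Countable := h𝓔1.biUnion fun B _ => Finset.countable_toSet B
    refine this.mono fun p hp => ?_
    obtain ⟨B, hB, hpB⟩ := h p hp
    exact mem_iUnion₂.mpr ⟨B, hB, hpB⟩
  obtain ⟨p, hp, hpB⟩ := hun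
  have hqD : q ∈ Cl e φ p.1 p.2.1 := by
    have : C ⊆ Cl e φ p.1 p.2.1 := by
      intro c hc
      obtain ⟨B, hB, rfl⟩ := h𝓔2 hc
      have := hk B p hp
      simpa [hpB B hB] using this
    exact (isClosed_closure (s := φ '' (e ⁻¹' Box p.1 p.2.1))).closure_subset (closure_mono this hC3)
  exact Set.disjoint_left.mp (hJ.1 p (hJ'J hp.1.1)) hqD (hqC p hp)

/-- Continuous maps from a dense subspace of a power of the line to a compact Hausdorff space of
countable tightness depend continuously on countably many coordinates. -/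
theorem factor [T2Space K] (he : IsInducing e) (hd : DenseRange e) (ht : CTight K) (hφ : Continuous φ) :
    ∃ A : Set T, A.Countable ∧ ∀ (s : S) (U : Set K), IsOpen U → φ s ∈ U →
      ∃ (G : Finset T) (b : T → BB), (G : Set T) ⊆ A ∧ e s ∈ Box G b ∧ ∀ z : S, e z ∈ Box G b → φ z ∈ U := by
  classical
  obtain ⟨A, hA, hgood⟩ := exists_good e φ hd ht
  -- basic neighbourhoods
  have hnb : ∀ (s : S) (O : Set K), IsOpen O → φ s ∈ O → ∃ (G : Finset T) (b : T → BB), e s ∈ Box G b ∧
      φ '' (e ⁻¹' Box G b) ⊆ O := by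
    intro s O hO hs
    have h1 : φ ⁻¹' O ∈ 𝓝 s := (hO.preimage hφ).mem_nhds hs
    rw [he.nhds_eq_comap, Filter.mem_comap] at h1
    obtain ⟨V, hV, hVO⟩ := h1
    rw [nhds_pi, Filter.mem_pi] at hV
    obtain ⟨I, hI, v, hv, hvV⟩ := hV
    have : ∀ t : T, ∃ b : BB, e s t ∈ (b : Set ℝ) ∧ (b : Set ℝ) ⊆ v t := by
      intro t
      obtain ⟨u, hu1, hu2, hu3⟩ := mem_nhds_iff.mp (hv t)
      obtain ⟨b, hb1, hb2⟩ := BB_basis hu2 hu3
      exact ⟨b, hb1, hb2.trans hu1⟩
    choose b hb1 hb2 using this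
    refine ⟨hI.toFinset, b, fun t _ => hb1 t, ?_⟩
    rintro _ ⟨z, hz, rfl⟩
    apply hVO
    apply hvV
    intro t ht'
    exact hb2 t (hz t (by simpa using ht'))
  refine ⟨A, hA, fun s U hU hsU => ?_⟩
  obtain ⟨O, hO, hsO, hOU⟩ : ∃ O, IsOpen O ∧ φ s ∈ O ∧ closure O ⊆ U := by
    obtain ⟨V, hV, hVc, hVU⟩ := exists_mem_nhds_isClosed_subset (hU.mem_nhds hsU)
    obtain ⟨O, hO1, hO2, hO3⟩ := mem_nhds_iff.mp hV
    exact ⟨O, hO2, hO3, (closure_minimal hO1 hVc).trans hVU⟩
  obtain ⟨G, b, hsG, hGO⟩ := hnb s O hO hsO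
  refine ⟨G.filter (· ∈ A), b, ?_, fun t ht' => hsG t (Finset.mem_filter.mp ht').1, ?_⟩
  · intro t ht'
    exact (Finset.mem_filter.mp ht').2
  intro z hz
  apply hOU
  by_contra hzO
  -- separate
  obtain ⟨Q, hQ, hzQ, hQd⟩ : ∃ Q, IsOpen Q ∧ φ z ∈ Q ∧ Disjoint (closure Q) (closure O) := by
    obtain ⟨V, hV, hVc, hVU⟩ := exists_mem_nhds_isClosed_subset
      ((isClosed_closure (s := O)).isOpen_compl.mem_nhds hzO)
    obtain ⟨Q, hQ1, hQ2, hQ3⟩ := mem_nhds_iff.mp hV
    refine ⟨Q, hQ2, hQ3, ?_⟩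
    rw [Set.disjoint_left]
    intro k hk1 hk2
    exact hVU (closure_minimal hQ1 hVc hk1) hk2
  obtain ⟨G', b', hzG, hGQ⟩ := hnb z Q hQ hzQ
  have hβ : ∀ t : T, t ∈ A → ∃ β : BB, e z t ∈ (β : Set ℝ) ∧ (t ∈ G → (β : Set ℝ) ⊆ b t) ∧
      (t ∈ G' → (β : Set ℝ) ⊆ b' t) := by
    intro t htA
    obtain ⟨β, hβ1, hβ2⟩ := BB_basis (x := e z t)
      (U := (if t ∈ G then (b t : Set ℝ) else univ) ∩ (if t ∈ G' then (b' t : Set ℝ) else univ))
      (by
        apply IsOpen.inter
        · split_ifs
          · exact BB_open _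
          · exact isOpen_univ
        · split_ifs
          · exact BB_open _
          · exact isOpen_univ) (by
        constructor
        · split_ifs with h
          · exact hz t (Finset.mem_filter.mpr ⟨h, htA⟩)
          · exact mem_univ _
        · split_ifs with h
          · exact hzG t h
          · exact mem_univ _)
    refine ⟨β, hβ1, fun h x hx => ?_, fun h x hx => ?_⟩
    · have := (hβ2 hx).1
      rwa [if_pos h] at this
    · have := (hβ2 hx).2
      rwa [if_pos h] at this
  let U0 : BB := ⟨univ, Or.inl rfl⟩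
  have : Nonempty BB := ⟨U0⟩
  choose! β hβ1 hβ2 hβ3 using hβ
  refine hgood (G ∪ G') (fun t => if t ∈ A then β t else if t ∈ G then b t else U0)
    (fun t => if t ∈ A then β t else if t ∈ G' then b' t else U0) ?_ ?_
  · intro t _ htA
    simp [htA]
  · refine hQd.symm.mono ?_ ?_
    · apply closure_mono
      refine subset_trans (image_mono ?_) hGO
      intro y hy t htG
      have := hy t (Finset.mem_union_left _ htG)
      by_cases htA : t ∈ A
      · simp only [htA, if_true] at this
        exact hβ2 t htA htG this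
      · simpa only [htA, htG, if_true, if_false] using this
    · apply closure_mono
      refine subset_trans (image_mono ?_) hGQ
      intro y hy t htG
      have := hy t (Finset.mem_union_right _ htG)
      by_cases htA : t ∈ A
      · simp only [htA, if_true] at this
        exact hβ3 t htA htG this
      · simpa only [htA, htG, if_true, if_false] using this

end main

/-- Every continuous image of a power of the line in a compact Hausdorff space of countable
tightness is cosmic. -/
theorem result (ι : Type*) (K : Type*) [TopologicalSpace K] [CompactSpace K] [T2Space K]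
    (hK : CTight K) (φ : (ι → ℝ) → K) (hφ : Continuous φ) : Cosmic (range φ) := by
  classical
  obtain ⟨A, hA, hfac⟩ := factor (id : (ι → ℝ) → (ι → ℝ)) φ IsInducing.id denseRange_id hK hφ
  have hAc : Countable A := hA.to_subtype
  let P : Finset (A × BB) → Set (range φ) := fun F =>
    {z | ∃ s : ι → ℝ, (∀ p ∈ F, s p.1 ∈ (p.2 : Set ℝ)) ∧ φ s = z}
  refine ⟨range P, countable_range P, ?_⟩
  rintro ⟨_, s, rfl⟩ U hU hsU
  obtain ⟨V, hV, rfl⟩ := isOpen_induced_iff.mp hU
  obtain ⟨G, b, hGA, hs, himg⟩ := hfac s V hV hsU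
  refine ⟨_, ⟨G.attach.image (fun t => ((⟨t.1, hGA t.2⟩ : A), b t.1)), rfl⟩, ?_, ?_⟩
  · refine ⟨s, ?_, rfl⟩
    intro p hp
    obtain ⟨t, -, rfl⟩ := Finset.mem_image.mp hp
    exact hs t.1 t.2
  · rintro ⟨z, hz⟩ ⟨s', hs', hs''⟩
    have : φ s' ∈ V := himg s' (fun t ht => hs' (⟨t, hGA ht⟩, b t)
      (Finset.mem_image.mpr ⟨⟨t, ht⟩, Finset.mem_attach _ _, rfl⟩))
    rw [hs''] at this
    exact this

end Pool.Agent.Results.MP_ed4848_gt.CosmicImage
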